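import Pool.Agent.W809.CI.Stm

set_option autoImplicit false

open Set Filter Topology

namespace Pool.Agent.W33.CI

open Pool.Agent.W809.CI

lemma cmu : Continuous muf := by unfold muf; fun_prop

lemma cT (p : ℕ) : Continuous (Tf p) := by unfold Tf; fun_prop

lemma cnu : Continuous nuf := by unfold nuf; fun_prop

lemma mu_le (l : ℝ) : muf l ≤ 1 := max_le zero_le_one (min_le_left _ _)

lemma mu_nonneg (l : ℝ) : 0 ≤ muf l := le_max_left _ _

theorem fopc : S_PT → S_FOP := by
  intro hPT Y _ p W hp hW h4 lam x hlam hx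
  obtain ⟨hb, hr, hbb, hb0, hr0, hr1, -⟩ := hPT
  have hrho : ∀ (f : Y × ℝ → ℝ) (g : Y × ℝ → Pt), Continuous f → Continuous g →
      Continuous (fun z => rho (f z) (g z)) := fun f g hf hg => hr.comp (hf.prodMk hg)
  have hl1 : Continuous (fun q : Y × ℝ => lam q.1) := hlam.comp continuous_fst
  have hmu : Continuous (fun q : Y × ℝ => muf (lam q.1)) := cmu.comp hl1
  have hT : Continuous (fun q : Y × ℝ => Tf p (lam q.1)) := (cT p).comp hl1
  have hnu : Continuous (fun q : Y × ℝ => nuf (lam q.1)) := cnu.comp hl1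
  have ht : Continuous (fun q : Y × ℝ => q.2) := continuous_snd
  have htW : Continuous (fun q : Y × ℝ => q.2 / W) := ht.div_const W
  have hxx : ∀ f : Y × ℝ → ℝ, Continuous f → Continuous (fun q : Y × ℝ => x q.1 (f q)) :=
    fun f hf => hx.comp (continuous_fst.prodMk hf)
  have hden : ∀ q : Y × ℝ, (p:ℝ) - 2 * muf (lam q.1) * W ≠ 0 := by
    intro q
    have h1 := mu_le (lam q.1)
    have h2 : muf (lam q.1) * W ≤ 1 * W := mul_le_mul_of_nonneg_right h1 hW.le
    have h3 : 0 < (p:ℝ) - 2 * muf (lam q.1) * W := by nlinarith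
    exact h3.ne'
  -- the three branches
  have hA : Continuous (fun q : Y × ℝ => rho (max (nuf (lam q.1)) (q.2 / W)) (x q.1 0)) :=
    hrho _ _ (hnu.max htW) (hxx _ continuous_const)
  have hz : Continuous (fun q : Y × ℝ =>
      beta p (rho (nuf (lam q.1)) (beta (-p) (x q.1 (Tf p (lam q.1)))))) :=
    (hb p).comp (hrho _ _ hnu ((hb (-p)).comp (hxx _ hT)))
  have hB : Continuous (fun q : Y × ℝ => rho (2 * muf (lam q.1) - q.2 / W)
      (beta p (rho (nuf (lam q.1)) (beta (-p) (x q.1 (Tf p (lam q.1))))))) :=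
    hrho _ _ ((continuous_const.mul hmu).sub htW) hz
  have harg : Continuous (fun q : Y × ℝ => Tf p (lam q.1) +
      (q.2 - 2 * muf (lam q.1) * W) * (p - Tf p (lam q.1)) / (p - 2 * muf (lam q.1) * W)) := by
    refine hT.add (Continuous.div ?_ ?_ hden)
    · exact (ht.sub ((continuous_const.mul hmu).mul continuous_const)).mul
        (continuous_const.sub hT)
    · exact continuous_const.sub ((continuous_const.mul hmu).mul continuous_const)
  have hC : Continuous (fun q : Y × ℝ => beta p (rho (nuf (lam q.1)) (beta (-p)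
      (x q.1 (Tf p (lam q.1) +
        (q.2 - 2 * muf (lam q.1) * W) * (p - Tf p (lam q.1)) / (p - 2 * muf (lam q.1) * W)))))) :=
    (hb p).comp (hrho _ _ hnu ((hb (-p)).comp (hxx _ harg)))
  have hin : Continuous (fun q : Y × ℝ => if q.2 ≤ 2 * muf (lam q.1) * W then
      rho (2 * muf (lam q.1) - q.2 / W)
        (beta p (rho (nuf (lam q.1)) (beta (-p) (x q.1 (Tf p (lam q.1))))))
      else beta p (rho (nuf (lam q.1)) (beta (-p)
      (x q.1 (Tf p (lam q.1) + (q.2 - 2 * muf (lam q.1) * W) * (p - Tf p (lam q.1)) /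
        (p - 2 * muf (lam q.1) * W)))))) := by
    refine Continuous.if_le hB hC ht ((continuous_const.mul hmu).mul continuous_const) ?_
    intro q hq
    have h1 : q.2 / W = 2 * muf (lam q.1) := by
      rw [hq]; field_simp
    have h2 : (q.2 - 2 * muf (lam q.1) * W) = 0 := sub_eq_zero.mpr hq
    rw [h1, h2, zero_mul, zero_div, add_zero, sub_self, hr0 0 _ le_rfl]
  have hmW : Continuous (fun q : Y × ℝ => muf (lam q.1) * W) := hmu.mul continuous_const
  refine Continuous.if_le hA hin ht hmW ?_
  · intro q hq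
    have h1 : q.2 / W = muf (lam q.1) := by
      rw [hq]; field_simp
    have h2 : q.2 ≤ 2 * muf (lam q.1) * W := by
      rw [hq]
      have := mul_nonneg (mu_nonneg (lam q.1)) hW.le
      nlinarith
    rw [if_pos h2, h1]
    rcases lt_or_ge (lam q.1) 1 with hl | hl
    · have hnu0 : nuf (lam q.1) = 0 := by
        unfold nuf
        exact max_eq_left ((min_le_right _ _).trans (by linarith))
      have hT0 : Tf p (lam q.1) = 0 := by
        unfold Tf
        rw [max_eq_left ((min_le_right _ _).trans (by linarith)), mul_zero]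
      rw [hnu0, hT0, hr0 0 _ le_rfl, hbb, add_neg_cancel, hb0, max_eq_right (mu_nonneg _)]
      congr 1
      ring
    · have hm : muf (lam q.1) = 1 := by
        unfold muf
        rw [min_eq_left hl]
        exact max_eq_right zero_le_one
      rw [hm, hr1 _ _ (le_max_right _ _), hr1 _ _ (by norm_num)]

end Pool.Agent.W33.CI
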